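import Mathlib
import Pool.Agent.Lib.helper5.PTree

namespace Pool.Agent.H.MP_31fefb_co

open SimpleGraph Pool.Agent.Lib.helper5.PTree

variable {V W : Type}

/-- `G` has a tree-decomposition of width at most `w`. -/
def HasTreeDec (G : SimpleGraph V) (w : ℕ) : Prop :=
  ∃ (ι : Type) (_ : Finite ι) (T : SimpleGraph ι) (bag : ι → Set V), T.IsTree ∧
    (∀ u v, G.Adj u v → ∃ t, u ∈ bag t ∧ v ∈ bag t) ∧
    (∀ v, (T.induce {t | v ∈ bag t}).Connected) ∧ ∀ t, (bag t).ncard ≤ w + 1

/-- `B` is a model of `H` in `G`: disjoint connected branch sets, joined along the edges of `H`. -/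
def Model (H : SimpleGraph W) (G : SimpleGraph V) (B : W → Set V) : Prop :=
  (∀ x, (G.induce (B x)).Connected) ∧ (∀ x y, x ≠ y → Disjoint (B x) (B y)) ∧
    ∀ x y, H.Adj x y → ∃ a ∈ B x, ∃ b ∈ B y, G.Adj a b

/-- `H` is a minor of `G`. -/
def IsMinor (H : SimpleGraph W) (G : SimpleGraph V) : Prop := ∃ B, Model H G B

/-- A long cycle inside `S`, with all but three consecutive vertices collected in `D`. -/
def LC (G : SimpleGraph V) (S : Set V) : Prop :=
  ∃ (a b c v d : V) (D : Set V), (G.induce D).Connected ∧ a ≠ c ∧ a ∉ D ∧ b ∉ D ∧ c ∉ D ∧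
    v ∈ D ∧ d ∈ D ∧ G.Adj v a ∧ G.Adj a b ∧ G.Adj b c ∧ G.Adj c d ∧ a ∈ S ∧ b ∈ S ∧ c ∈ S ∧ D ⊆ S

variable {G : SimpleGraph V}

theorem lc_of_path {S : Set V} {a v : V} (q : G.Walk a v) (hq : q.IsPath) (h3 : 3 ≤ q.length)
    (h : G.Adj v a) (hS : ∀ z ∈ q.support, z ∈ S) : LC G S := by
  cases q with
  | nil => simp at h3
  | cons h1 q =>
  cases q with
  | nil => simp at h3
  | cons h2 q =>
  cases q with
  | nil => simp at h3
  | cons h4 r =>
    rename_i b c d
    simp only [Walk.cons_isPath_iff, Walk.support_cons, List.mem_cons, not_or] at hq hS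
    exact ⟨a, b, c, v, d, {z | z ∈ r.support}, r.connected_induce_support, hq.2.2.1, hq.2.2.2,
      hq.1.2.2, hq.1.1.2, r.end_mem_support, r.start_mem_support, h, h1, h2, h4, hS _ (by simp),
      hS _ (by simp), hS _ (by simp), fun z hz => hS z (by simp [show z ∈ r.support from hz])⟩

theorem simplicial [Finite V] {S : Set V} (hS : ¬ LC G S) (T : Set V) (hT : T ⊆ S)
    (hne : T.Nonempty) : ∃ x ∈ T, ∃ y z, (∀ w ∈ T, G.Adj x w → w = y ∨ w = z) ∧
      ∀ w ∈ T, ∀ w' ∈ T, G.Adj x w → G.Adj x w' → w ≠ w' → G.Adj w w' := by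
  classical
  have := Fintype.ofFinite V
  obtain ⟨n, ⟨x, y, p, hp, hs, hl⟩, hn⟩ : ∃ n, (∃ x y, ∃ p : G.Walk x y, p.IsPath ∧
      (∀ z ∈ p.support, z ∈ T) ∧ p.length = n) ∧ ¬ (∃ x y, ∃ p : G.Walk x y, p.IsPath ∧
      (∀ z ∈ p.support, z ∈ T) ∧ p.length = n + 1) := by
    by_contra hc
    have all : ∀ n, ∃ x y, ∃ p : G.Walk x y, p.IsPath ∧
        (∀ z ∈ p.support, z ∈ T) ∧ p.length = n := by
      intro n
      induction n with
      | zero =>
        obtain ⟨x, hx⟩ := hne
        exact ⟨x, x, .nil, by simp, by simpa using hx, rfl⟩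
      | succ n ih =>
        by_contra h
        exact hc ⟨n, ih, h⟩
    obtain ⟨x, y, p, hp, -, hl⟩ := all (Fintype.card V)
    have := hp.length_lt
    omega
  have key : ∀ w ∈ T, G.Adj x w → (w = p.getVert 1 ∧ 1 ≤ p.length) ∨
      (w = p.getVert 2 ∧ 2 ≤ p.length) := by
    intro w hw ha
    have hm : w ∈ p.support := by
      by_contra hm
      refine hn ⟨w, y, .cons ha.symm p, by simp [hp, hm], ?_, by simp [hl]⟩
      intro z hz
      simp only [Walk.support_cons, List.mem_cons] at hz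
      rcases hz with rfl | hz
      · exact hw
      · exact hs z hz
    have h1 := p.getVert_length_takeUntil hm
    have h2 := p.length_takeUntil_le_length hm
    have h3 : ¬ 3 ≤ (p.takeUntil w hm).length := fun h3 =>
      hS (lc_of_path _ (hp.takeUntil hm) h3 ha.symm
        fun z hz => hT (hs z (p.support_takeUntil_subset_support hm hz)))
    have h0 : (p.takeUntil w hm).length ≠ 0 := by
      intro e
      rw [e, p.getVert_zero] at h1
      exact ha.ne h1
    have : (p.takeUntil w hm).length = 1 ∨ (p.takeUntil w hm).length = 2 := by omega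
    rcases this with e | e <;> rw [e] at h1 h2
    · exact Or.inl ⟨h1.symm, h2⟩
    · exact Or.inr ⟨h1.symm, h2⟩
  refine ⟨x, hs x p.start_mem_support, p.getVert 1, p.getVert 2, fun w hw ha =>
    (key w hw ha).imp (·.1) (·.1), fun w hw w' hw' ha ha' hne => ?_⟩
  rcases key w hw ha with ⟨rfl, h1⟩ | ⟨rfl, h1⟩ <;> rcases key w' hw' ha' with ⟨e, h2⟩ | ⟨e, h2⟩
  · exact absurd e.symm hne
  · rw [e]; exact p.adj_getVert_succ (by omega)
  · rw [e]; exact (p.adj_getVert_succ (i := 1) (by omega)).symm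
  · exact absurd e.symm hne

theorem order [Finite V] {S : Set V} (hS : ¬ LC G S) : ∀ (n : ℕ) (T : Set V), T.ncard = n →
    T ⊆ S → ∃ r : V → ℕ, (∀ x ∈ T, ∀ y ∈ T, G.Adj x y → r x ≠ r y) ∧
      ∀ x ∈ T, (∃ y z, ∀ w ∈ T, G.Adj x w → r w < r x → w = y ∨ w = z) ∧
        ∀ w ∈ T, ∀ w' ∈ T, G.Adj x w → G.Adj x w' → r w < r x → r w' < r x → w ≠ w' →
          G.Adj w w' := by
  classical
  intro n
  induction n with
  | zero =>
    intro T h _
    have : T = ∅ := (Set.ncard_eq_zero (Set.toFinite T)).1 h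
    subst this
    exact ⟨fun _ => 0, by simp, by simp⟩
  | succ n ih =>
    intro T h hT
    obtain ⟨x, hx, y, z, h1, h2⟩ := simplicial hS T hT (Set.nonempty_of_ncard_ne_zero (by omega))
    obtain ⟨r, r1, r2⟩ := ih (T \ {x}) (by rw [Set.ncard_sdiff_singleton_of_mem hx]; omega)
      (Set.sdiff_subset.trans hT)
    obtain ⟨M, hM⟩ := (Set.finite_range r).bddAbove
    have hM' : ∀ v, r v ≤ M := fun v => hM ⟨v, rfl⟩
    refine ⟨fun v => if v = x then M + 1 else r v, fun a ha b hb hab => ?_, fun a ha => ?_⟩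
    · have := hM' a
      have := hM' b
      have := hab.ne
      by_cases e1 : a = x <;> by_cases e2 : b = x <;> simp only [e1, e2, if_true, if_false]
      · simp_all
      · omega
      · omega
      · exact r1 a ⟨ha, e1⟩ b ⟨hb, e2⟩ hab
    · by_cases e1 : a = x
      · subst e1
        exact ⟨⟨y, z, fun w hw hw' _ => h1 w hw hw'⟩, fun w hw w' hw' b1 b2 _ _ b3 =>
          h2 w hw w' hw' b1 b2 b3⟩
      · obtain ⟨⟨y', z', q1⟩, q2⟩ := r2 a ⟨ha, e1⟩
        have lt : ∀ w, (if w = x then M + 1 else r w) < (if a = x then M + 1 else r a) →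
            w ≠ x ∧ r w < r a := by
          intro w hw
          have := hM' a
          by_cases e2 : w = x <;> simp only [e1, e2, if_true, if_false] at hw
          · omega
          · exact ⟨e2, hw⟩
        exact ⟨⟨y', z', fun w hw hw' l => q1 w ⟨hw, (lt w l).1⟩ hw' (lt w l).2⟩,
          fun w hw w' hw' b1 b2 l l' b3 => q2 w ⟨hw, (lt w l).1⟩ w' ⟨hw', (lt w' l').1⟩ b1 b2
            (lt w l).2 (lt w' l').2 b3⟩

theorem dec_of_noLC [Finite V] (X : Set V) (hS : ¬ LC G Xᶜ) : HasTreeDec G (X.ncard + 2) := by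
  classical
  obtain ⟨r, r1, r2⟩ := order hS _ Xᶜ rfl le_rfl
  let L : V → Set V := fun x => {w | w ∉ X ∧ x ∉ X ∧ G.Adj x w ∧ r w < r x}
  have hp : ∀ x, ∃ o : Option V, (o = none ∧ L x = ∅) ∨
      ∃ p ∈ L x, o = some p ∧ ∀ w ∈ L x, r w ≤ r p := by
    intro x
    rcases (L x).eq_empty_or_nonempty with e | e
    · exact ⟨none, Or.inl ⟨rfl, e⟩⟩
    · obtain ⟨p, h1, h2⟩ := Set.exists_max_image (L x) r (Set.toFinite _) e
      exact ⟨some p, Or.inr ⟨p, h1, rfl, h2⟩⟩
  choose pr hpr using hp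
  let par : Option V → Option V := fun o => o.bind pr
  let rk : Option V → ℕ := fun o => o.elim 0 fun x => r x + 1
  have hrk : ∀ o, o ≠ none → rk (par o) < rk o := by
    rintro (_ | x) h
    · exact absurd rfl h
    · rcases hpr x with ⟨e, -⟩ | ⟨p, h1, e, -⟩
      · simp [rk, par, e]
      · simpa [rk, par, e] using h1.2.2.2
  let bag : Option V → Set V := fun o => X ∪ o.elim ∅ fun x => insert x (L x)
  refine ⟨Option V, inferInstance, PT none par, bag, isTree rk hrk, fun u v h => ?_, fun v => ?_,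
    fun o => ?_⟩
  · by_cases hu : u ∈ X
    · exact ⟨some v, Or.inl hu, Or.inr (Or.inl rfl)⟩
    by_cases hv : v ∈ X
    · exact ⟨some u, Or.inr (Or.inl rfl), Or.inl hv⟩
    rcases lt_or_gt_of_ne (r1 u hu v hv h) with l | l
    · exact ⟨some v, Or.inr (Or.inr ⟨hu, hv, h.symm, l⟩), Or.inr (Or.inl rfl)⟩
    · exact ⟨some u, Or.inr (Or.inl rfl), Or.inr (Or.inr ⟨hv, hu, h, l⟩)⟩
  · by_cases hv : v ∈ X
    · exact sub_conn rk hrk _ none (Or.inl hv) fun s _ e => ⟨e, Or.inl hv⟩
    · refine sub_conn rk hrk _ (some v) (Or.inr (Or.inl rfl)) ?_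
      rintro (_ | s) (hs | hs) e
      · exact absurd hs hv
      · exact absurd hs (by simp)
      · exact absurd hs hv
      · have hs' : v ∈ L s := by
          rcases hs with rfl | hs
          · exact absurd rfl e
          · exact hs
        refine ⟨by simp, ?_⟩
        rcases hpr s with ⟨-, e2⟩ | ⟨p, h1, e2, h2⟩
        · rw [e2] at hs'
          exact absurd hs' (by simp)
        · have : par (some s) = some p := e2
          rw [this]
          by_cases e3 : v = p
          · exact Or.inr (Or.inl e3)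
          · have a := (r2 s h1.2.1).2 p h1.1 v hv h1.2.2.1 hs'.2.2.1 h1.2.2.2 hs'.2.2.2 (Ne.symm e3)
            exact Or.inr (Or.inr ⟨hv, h1.1, a,
              lt_of_le_of_ne (h2 v hs') (r1 p h1.1 v hv a).symm⟩)
  · refine (Set.ncard_union_le _ _).trans ?_
    rcases o with _ | x
    · simp; omega
    · have : (L x).ncard ≤ 2 := by
        by_cases hx : x ∈ X
        · have : L x = ∅ := Set.eq_empty_of_forall_notMem fun w hw => hw.2.1 hx
          simp [this]
        · obtain ⟨y, z, h⟩ := (r2 x hx).1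
          refine (Set.ncard_le_ncard (t := {y, z}) (fun w hw => h w hw.1 hw.2.2.1 hw.2.2.2)).trans ?_
          exact (Set.ncard_insert_le _ _).trans (by simp)
      have := Set.ncard_insert_le x (L x)
      simp only [Option.elim]
      omega

/-- Three pairwise joined disjoint connected sets contain a triangle or a long cycle. -/
theorem cyc {S : Set V} (B : Fin 3 → Set V) (h : Model (⊤ : SimpleGraph (Fin 3)) G B)
    (hB : ∀ c, B c ⊆ S) :
    (∃ τ : Fin 3 → V, (∀ c, τ c ∈ S) ∧ ∀ c c', c ≠ c' → G.Adj (τ c) (τ c')) ∨ LC G S := by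
  classical
  obtain ⟨h1, h2, h3⟩ := h
  obtain ⟨a, ha, b, hb, hab⟩ := h3 0 1 (by simp)
  obtain ⟨b', hb', c, hc, hbc⟩ := h3 1 2 (by simp)
  obtain ⟨c', hc', a', ha', hca⟩ := h3 2 0 (by simp)
  have d01 := Set.disjoint_left.1 (h2 0 1 (by simp))
  have d02 := Set.disjoint_left.1 (h2 0 2 (by simp))
  have d12 := Set.disjoint_left.1 (h2 1 2 (by simp))
  let R : SimpleGraph V := ⟨fun x y => G.Adj x y ∧ x ∈ S ∧ y ∈ S ∧ s(x, y) ≠ s(a, b),
    ⟨fun x y h => ⟨h.1.symm, h.2.2.1, h.2.1, by rw [Sym2.eq_swap]; exact h.2.2.2⟩⟩,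
    ⟨fun x h => h.1.ne rfl⟩⟩
  have ins : ∀ i, ∀ x ∈ B i, ∀ y ∈ B i, R.Reachable x y := by
    intro i x hx y hy
    refine ((h1 i).preconnected ⟨x, hx⟩ ⟨y, hy⟩).map (G' := R) ⟨Subtype.val, ?_⟩
    rintro ⟨u, hu⟩ ⟨v, hv⟩ huv
    refine ⟨huv, hB i hu, hB i hv, fun e => ?_⟩
    have : a ∈ B i ∧ b ∈ B i := by
      rcases Sym2.eq_iff.1 e with ⟨rfl, rfl⟩ | ⟨rfl, rfl⟩
      · exact ⟨hu, hv⟩
      · exact ⟨hv, hu⟩
    by_cases e0 : i = 0
    · subst e0; exact d01 this.2 hb
    · exact Set.disjoint_left.1 (h2 0 i (Ne.symm e0)) ha this.1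
  have nc : ∀ x ∈ B 2, ∀ y, s(x, y) ≠ s(a, b) := by
    intro x hx y e
    rcases Sym2.eq_iff.1 e with ⟨rfl, rfl⟩ | ⟨rfl, rfl⟩
    · exact d02 ha hx
    · exact d12 hb hx
  have rch : R.Reachable b a :=
    (ins 1 b hb b' hb').trans <| (Adj.reachable (G := R) ⟨hbc, hB 1 hb', hB 2 hc, by
      rw [Sym2.eq_swap]; exact nc c hc _⟩).trans <| (ins 2 c hc c' hc').trans <|
      (Adj.reachable (G := R) ⟨hca, hB 2 hc', hB 0 ha', nc c' hc' _⟩).trans (ins 0 a' ha' a ha)
  obtain ⟨q, hq⟩ := rch.exists_isPath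
  have sup : ∀ {x y : V} (q : R.Walk x y), y ∈ S → ∀ z ∈ q.support, z ∈ S := by
    intro x y q hy
    induction q with
    | nil => simpa using hy
    | cons h q ih =>
      intro z hz
      simp only [Walk.support_cons, List.mem_cons] at hz
      rcases hz with rfl | hz
      · exact h.2.1
      · exact ih hy z hz
  by_cases l : 3 ≤ q.length
  · right
    have le : R ≤ G := fun x y h => h.1
    exact lc_of_path (q.mapLe le) (hq.mapLe le) (by simpa using l) hab
      (by simpa using sup q (hB 0 ha))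
  · left
    cases q with
    | nil => exact absurd rfl hab.ne
    | cons e1 q =>
    cases q with
    | nil => exact absurd Sym2.eq_swap e1.2.2.2
    | cons e2 q =>
    cases q with
    | cons e3 q => simp at l
    | nil =>
      rename_i x
      refine ⟨![a, b, x], fun c => ?_, fun c c' hc => ?_⟩
      · fin_cases c
        · exact hB 0 ha
        · exact hB 1 hb
        · exact e1.2.2.1
      · fin_cases c <;> fin_cases c' <;> first | exact absurd rfl hc | skip
        · exact hab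
        · exact e2.1.symm
        · exact hab.symm
        · exact e1.1
        · exact e2.1
        · exact e1.1.symm

end Pool.Agent.H.MP_31fefb_co
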