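import Mathlib
import Pool.Agent.H.MP_31fefb_co.A

namespace Pool.Agent.H.MP_31fefb_co

open SimpleGraph

variable {V : Type} {G : SimpleGraph V}

theorem big [Finite V] (m : ℕ) (X : Set V)
    (hE : ∀ A B : Set V, m ≤ A.ncard → m ≤ B.ncard → ∃ a ∈ A, ∃ b ∈ B, a = b ∨ G.Adj a b)
    (hX : X.ncard + 3 * m ≤ Nat.card V) (hm : 0 < m) :
    ∃ y, ∃ Y : Set V, m ≤ Y.ncard ∧ y ∉ X ∧
      ∀ z ∈ Y, ∃ p : G.Walk y z, ∀ s ∈ p.support, s ∉ X := by
  classical
  let C : V → Set V := fun y => {z | ∃ p : G.Walk y z, ∀ s ∈ p.support, s ∉ X}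
  by_contra hc
  have small : ∀ y, y ∉ X → (C y).ncard < m := fun y hy =>
    lt_of_not_ge fun h => hc ⟨y, C y, h, hy, fun z hz => hz⟩
  have hc1 : (Xᶜ).ncard + X.ncard = Nat.card V := by rw [add_comm, Set.ncard_add_ncard_compl]
  have ex : ∃ n, ∃ A : Set V, A.ncard = n ∧ m ≤ n ∧ A ⊆ Xᶜ ∧
      ∀ a ∈ A, ∀ b, b ∉ X → G.Adj a b → b ∈ A :=
    ⟨_, Xᶜ, rfl, by omega, le_rfl, fun a _ b hb _ => hb⟩
  obtain ⟨A, h1, h2, h3, h4⟩ := Nat.find_spec ex
  obtain ⟨x, hx⟩ : A.Nonempty := Set.nonempty_of_ncard_ne_zero (by omega)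
  have hxC : x ∈ C x := ⟨.nil, by simpa using h3 hx⟩
  have l1 : (A \ C x).ncard < A.ncard :=
    Set.ncard_lt_ncard ⟨Set.sdiff_subset, fun h => (h hx).2 hxC⟩
  have l2 : (A \ C x).ncard < m := by
    by_contra h
    refine Nat.find_min ex (h1 ▸ l1) ⟨A \ C x, rfl, by omega, Set.sdiff_subset.trans h3, ?_⟩
    rintro a ⟨ha, ha'⟩ b hb hab
    refine ⟨h4 a ha b hb hab, fun ⟨p, hp⟩ => ha' ⟨p.concat hab.symm, fun s hs => ?_⟩⟩
    simp only [Walk.support_concat, List.mem_append,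
      List.mem_singleton] at hs
    rcases hs with hs | rfl
    · exact hp s hs
    · exact h3 ha
  have l3 : A.ncard ≤ (A \ C x).ncard + (C x).ncard :=
    (Set.ncard_le_ncard (t := A \ C x ∪ C x) (by simp)).trans (Set.ncard_union_le _ _)
  have l4 := small x (h3 hx)
  have l5 : (Xᶜ).ncard ≤ (Xᶜ \ A).ncard + A.ncard :=
    (Set.ncard_le_ncard (t := Xᶜ \ A ∪ A) (by simp)).trans (Set.ncard_union_le _ _)
  obtain ⟨a, ha, b, hb, h | h⟩ := hE A (Xᶜ \ A) (by omega) (by omega)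
  · exact hb.2 (h ▸ ha)
  · exact hb.2 (h4 a ha b hb.1 h)

theorem sep' {ι : Type} {T : SimpleGraph ι} (B : ι → Set V)
    (h1 : ∀ u v, G.Adj u v → ∃ t, u ∈ B t ∧ v ∈ B t)
    (h2 : ∀ v, (T.induce {t | v ∈ B t}).Connected) (t t' : ι) {a c : ι} {u v : V}
    (W : G.Walk u v) (hn : ∀ z ∈ W.support, z ∈ B t → z ∉ B t') (ha : u ∈ B a) (hc : v ∈ B c) :
    (T.deleteEdges {s(t, t')}).Reachable a c := by
  have one : ∀ z ∈ W.support, ∀ s s', z ∈ B s → z ∈ B s' →
      (T.deleteEdges {s(t, t')}).Reachable s s' := by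
    intro z hz s s' hs ht
    refine ((h2 z).preconnected ⟨s, hs⟩ ⟨s', ht⟩).map (G' := T.deleteEdges {s(t, t')})
      ⟨Subtype.val, ?_⟩
    rintro ⟨x, hx⟩ ⟨y, hy⟩ hxy
    refine deleteEdges_adj.mpr ⟨hxy, fun e => ?_⟩
    rcases Sym2.eq_iff.mp (show s(x, y) = s(t, t') from e) with ⟨rfl, rfl⟩ | ⟨rfl, rfl⟩
    · exact hn z hz hx hy
    · exact hn z hz hy hx
  clear hn
  induction W generalizing a with
  | nil => exact one _ (by simp) _ _ ha hc
  | cons e W ih =>
    obtain ⟨s, h3, h4⟩ := h1 _ _ e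
    exact (one _ (by simp) _ _ ha h3).trans (ih h4 hc fun z hz => one z (by simp [hz]))

theorem no_dec [Finite V] (m w : ℕ)
    (hE : ∀ A B : Set V, m ≤ A.ncard → m ≤ B.ncard → ∃ a ∈ A, ∃ b ∈ B, a = b ∨ G.Adj a b)
    (hw : w + 1 + 3 * m ≤ Nat.card V) (hm : 0 < m) : ¬ HasTreeDec G w := by
  classical
  rintro ⟨ι, hι, T, B, hT, h1, h2, h3⟩
  have := Fintype.ofFinite ι
  choose y Y hY hy hp using fun t => big m (B t) hE (by have := h3 t; omega) hm
  have hd : ∀ t, ∃ d a, T.Adj t d ∧ y t ∈ B a ∧ (T.deleteEdges {s(t, d)}).Reachable d a := by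
    intro t
    obtain ⟨⟨a, ha⟩⟩ := (h2 (y t)).nonempty
    obtain ⟨p, hp⟩ := (hT.connected.preconnected t a).exists_isPath
    cases p with
    | nil => exact absurd ha (hy t)
    | cons h q =>
      rename_i d
      refine ⟨d, a, h, ha, ⟨q.toDeleteEdges _ fun e he e2 => ?_⟩⟩
      rw [Set.mem_singleton_iff] at e2
      subst e2
      exact ((Walk.cons_isPath_iff _ _).1 hp).2 (q.fst_mem_support_of_mem_edges he)
  choose d a hd ha hr using hd
  obtain ⟨t, t', hne, he⟩ := Fintype.exists_ne_map_eq_of_card_lt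
    (fun t : ι => (⟨s(t, d t), hd t⟩ : T.edgeSet)) (by
      have := (isTree_iff_connected_and_card.1 hT).2
      simp only [Nat.card_eq_fintype_card] at this
      exact lt_of_lt_of_eq (Nat.lt_succ_self _) (by convert this))
  have he' : s(t, d t) = s(t', d t') := congrArg Subtype.val he
  rcases Sym2.eq_iff.1 he' with ⟨e, -⟩ | ⟨e1, e2⟩
  · exact hne e
  have br := isAcyclic_iff_forall_isBridge.1 hT.isAcyclic (e := s(t, d t)) (hd t)
  rw [isBridge_iff] at br
  have r1 := hr t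
  have r2 := hr t'
  rw [← he', ← e1] at r2
  obtain ⟨u, hu, v, hv, huv⟩ := hE _ _ (hY t) (hY t')
  obtain ⟨p, hp1⟩ := hp t u hu
  obtain ⟨q, hq1⟩ := hp t' v hv
  have : ∃ W : G.Walk (y t) (y t'), ∀ z ∈ W.support, z ∈ p.support ∨ z ∈ q.support := by
    rcases huv with rfl | h
    · exact ⟨p.append q.reverse, fun z hz => by
        simpa [Walk.mem_support_append_iff] using hz⟩
    · refine ⟨p.append (.cons h q.reverse), fun z hz => ?_⟩
      simp only [Walk.mem_support_append_iff, Walk.support_cons, List.mem_cons,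
        Walk.support_reverse, List.mem_reverse] at hz
      rcases hz with hz | rfl | hz
      · exact Or.inl hz
      · exact Or.inl p.end_mem_support
      · exact Or.inr hz
  obtain ⟨W, hW⟩ := this
  have k := sep' B h1 h2 t (d t) W (fun z hz b1 b2 => by
    rcases hW z hz with g | g
    · exact hp1 z g b1
    · exact hq1 z g (e2 ▸ b2)) (ha t) (ha t')
  exact br (r2.trans (k.symm.trans r1.symm))

/-- Point-parabola incidences over a prime field. -/
theorem incid (p : ℕ) [Fact p.Prime] (h2 : (2 : ZMod p) ≠ 0) (A B : Finset (ZMod p × ZMod p))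
    (h : ∀ a ∈ A, ∀ b ∈ B, a.2 + b.2 ≠ (a.1 - b.1) ^ 2) : A.card * B.card ≤ p ^ 3 := by
  classical
  let c : ZMod p × ZMod p → ZMod p × ZMod p → ℤ := fun b z =>
    if z.2 = (z.1 - b.1) ^ 2 - b.2 then 1 else 0
  let N : ZMod p × ZMod p → ℤ := fun z => ∑ b ∈ B, c b z
  have c1 : ∀ b, ∑ z, c b z = p := by
    intro b
    rw [Fintype.sum_prod_type]
    simp [c]
  have c2 : ∀ b b', ∑ z, c b z * c b' z ≤ (if b = b' then (p : ℤ) else 0) + 1 := by
    intro b b'
    split_ifs with e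
    · subst e
      have : ∀ z, c b z * c b z = c b z := fun z => by simp only [c]; split_ifs <;> simp
      simp only [this, c1]
      omega
    · have : ∀ z, c b z * c b' z = if z.2 = (z.1 - b.1) ^ 2 - b.2 ∧ z.2 = (z.1 - b'.1) ^ 2 - b'.2
          then 1 else 0 := fun z => by simp only [c, ite_and]; split_ifs <;> simp
      simp only [this, Finset.sum_boole, zero_add]
      refine Nat.cast_le_one.2 (Finset.card_le_one.2 ?_)
      rintro ⟨x, u⟩ hx ⟨x', u'⟩ hx'
      simp only [Finset.mem_filter, Finset.mem_univ, true_and] at hx hx'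
      obtain ⟨a1, a2⟩ := hx
      obtain ⟨a3, a4⟩ := hx'
      have n1 : b.1 - b'.1 ≠ 0 := by
        intro g
        have g' : b.1 = b'.1 := sub_eq_zero.1 g
        exact e (Prod.ext g' (by rw [g'] at a1; linear_combination a1 - a2))
      have : 2 * (b.1 - b'.1) * (x - x') = 0 := by linear_combination a1 - a2 - a3 + a4
      have : x = x' := sub_eq_zero.1 ((mul_eq_zero.1 this).resolve_left (mul_ne_zero h2 n1))
      subst this
      exact Prod.ext rfl (a1.trans a3.symm)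
  have z0 : ∀ z ∈ A, N z = 0 := fun z hz => Finset.sum_eq_zero fun b hb =>
    if_neg fun e => h z hz b hb (by rw [e]; ring)
  have s1 : ∑ z ∈ Aᶜ, N z = p * B.card := by
    have := Finset.sum_add_sum_compl A N
    rw [Finset.sum_eq_zero z0, zero_add] at this
    rw [this, Finset.sum_comm]
    simp [c1, mul_comm]
  have s2 : ∑ z ∈ Aᶜ, N z ^ 2 ≤ B.card * (p + B.card) := by
    refine (Finset.sum_le_sum_of_subset_of_nonneg (Finset.subset_univ _)
      fun z _ _ => sq_nonneg _).trans ?_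
    have : ∑ z, N z ^ 2 = ∑ b ∈ B, ∑ b' ∈ B, ∑ z, c b z * c b' z := by
      simp only [N, sq, Finset.sum_mul_sum]
      rw [Finset.sum_comm]
      exact Finset.sum_congr rfl fun b _ => Finset.sum_comm
    rw [this]
    refine (Finset.sum_le_sum fun b hb => Finset.sum_le_sum fun b' _ => c2 b b').trans ?_
    refine (Finset.sum_le_sum (g := fun _ => (p : ℤ) + B.card) fun b hb => ?_).trans (by simp)
    simp [Finset.sum_add_distrib, hb]
  have cs := sq_sum_le_card_mul_sum_sq (s := Aᶜ) (f := N)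
  have ca : ((Aᶜ).card : ℤ) = p ^ 2 - A.card := by
    have := Finset.card_add_card_compl A
    simp only [Fintype.card_prod, ZMod.card] at this
    have := congrArg (Nat.cast : ℕ → ℤ) this
    push_cast at this
    linarith
  have cn : (0 : ℤ) ≤ (Aᶜ).card := by positivity
  rw [s1] at cs
  have k := cs.trans (mul_le_mul_of_nonneg_left s2 cn)
  rw [ca] at k
  rcases Nat.eq_zero_or_pos B.card with e | e
  · simp [e]
  have e' : (0 : ℤ) < B.card := by exact_mod_cast e
  have k2 : (p : ℤ) ^ 2 * B.card ≤ (p ^ 2 - A.card) * (p + B.card) :=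
    le_of_mul_le_mul_left (by nlinarith) e'
  have : (A.card : ℤ) * B.card ≤ p ^ 3 := by
    nlinarith [mul_nonneg (Nat.cast_nonneg (α := ℤ) A.card) (Nat.cast_nonneg (α := ℤ) p)]
  exact_mod_cast this

end Pool.Agent.H.MP_31fefb_co
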